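import Mathlib
import Pool.Agent.N909.TF.Tools

set_option autoImplicit false

/-!
# The law of large numbers for parametrised families of tuples, uniformly in the parameter
-/

open MeasureTheory Filter
open scoped Topology

namespace Pool.Agent.N223.UB

open Pool.Agent.N909.TF Pool.Agent.R528.RM

/-- the expected number of the chosen tuples of a family, in sieved models -/
noncomputable def EE (Q : ℕ) (J : Finset ℕ) (T : ℕ → Finset ℕ) : ℝ :=
  ∑ j ∈ cop J T Q, ∏ t ∈ T j, ((Q : ℝ) / Nat.totient Q) / Real.log t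

lemma EE_nonneg (Q : ℕ) (J : Finset ℕ) (T : ℕ → Finset ℕ) : 0 ≤ EE Q J T :=
  Finset.sum_nonneg fun _ _ => Finset.prod_nonneg fun t _ =>
    div_nonneg (by positivity) (Real.log_natCast_nonneg t)

/-- lower bound of the main term -/
lemma EE_ge (Q : ℕ) (hQ : 0 < Q) (k B : ℕ) (J : Finset ℕ) (T : ℕ → Finset ℕ)
    (hk : ∀ j ∈ J, (T j).card = k) (h2 : ∀ j ∈ J, ∀ t ∈ T j, 2 ≤ t) (x : ℕ) (hx : 3 ≤ x)
    (hB : ∀ j ∈ J, ∀ t ∈ T j, t ≤ x ^ B) :
    ((cop J T Q).card : ℝ) * (1 / ((B + 1) * Real.log x)) ^ k ≤ EE Q J T := by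
  have hx' : (3 : ℝ) ≤ x := by exact_mod_cast hx
  have hL : 0 < Real.log x := Real.log_pos (by linarith)
  have hc := cQ_ge Q hQ
  have h1 : ∀ j ∈ cop J T Q, (1 / ((B + 1) * Real.log x)) ^ k ≤
      ∏ t ∈ T j, ((Q : ℝ) / Nat.totient Q) / Real.log t := by
    intro j hj
    unfold cop at hj
    have hjJ := (Finset.mem_filter.1 hj).1
    rw [← hk j hjJ, ← Finset.prod_const]
    refine Finset.prod_le_prod (fun _ _ => by positivity) fun t ht => ?_
    have h3 := h2 j hjJ t ht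
    have h3' : (2 : ℝ) ≤ (t : ℕ) := by exact_mod_cast h3
    have h4 : Real.log t ≤ (B + 1) * Real.log x := by
      have h5 : Real.log t ≤ Real.log ((x : ℝ) ^ B) := by
        apply Real.log_le_log (by linarith)
        exact_mod_cast hB j hjJ t ht
      rw [Real.log_pow] at h5
      linarith
    have h5 : 0 < Real.log t := Real.log_pos (by linarith)
    exact div_le_div₀ (by linarith) hc h5 h4
  have h3 := Finset.card_nsmul_le_sum _ _ _ h1
  rw [nsmul_eq_mul] at h3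
  exact h3

/-- the profile and the main term -/
lemma EE_near (Q : ℕ) (hQ : 0 < Q) (k D : ℕ) : ∃ K : ℝ, 0 ≤ K ∧ ∀ (J : Finset ℕ) (T : ℕ → Finset ℕ),
    (∀ j ∈ J, (T j).card = k) → (∀ j ∈ J, ∀ t ∈ T j, 2 ≤ t) →
    (∀ t, (J.filter (fun j => t ∈ T j)).card ≤ D) →
    |∑ j ∈ cop J T Q, ∏ t ∈ T j, rhoW Q t - EE Q J T| ≤ K := by
  classical
  have hc := cQ_ge Q hQ
  set c : ℝ := (Q : ℝ) / Nat.totient Q with hcdef
  have hl2 : 0 < Real.log 2 := Real.log_pos (by norm_num)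
  set N0 : ℕ := ⌈Real.exp c⌉₊ with hN0
  refine ⟨(N0 * D : ℕ) * ((c / Real.log 2) ^ k + 1), by positivity, fun J T hk h2 hD => ?_⟩
  unfold EE
  rw [← Finset.sum_sub_distrib]
  have h3 : ∀ j ∈ cop J T Q, |∏ t ∈ T j, rhoW Q t - ∏ t ∈ T j, c / Real.log t| ≤
      if (∃ t ∈ T j, t < N0) then (c / Real.log 2) ^ k + 1 else 0 := by
    intro j hj
    unfold cop at hj
    obtain ⟨hjJ, hcj⟩ := Finset.mem_filter.1 hj
    have h4 : ∀ t ∈ T j, rhoW Q t = min 1 (c / Real.log t) := by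
      intro t ht
      unfold rhoW
      rw [if_pos (hcj t ht)]
    have h5 : ∀ t ∈ T j, 0 ≤ c / Real.log t ∧ c / Real.log t ≤ c / Real.log 2 := by
      intro t ht
      have h6 : (2 : ℝ) ≤ (t : ℕ) := by exact_mod_cast h2 j hjJ t ht
      have h7 : Real.log 2 ≤ Real.log t := Real.log_le_log (by norm_num) h6
      exact ⟨div_nonneg (by linarith) (by linarith), div_le_div_of_nonneg_left (by linarith) hl2 h7⟩
    split_ifs with h
    · have h6 : 0 ≤ ∏ t ∈ T j, rhoW Q t := Finset.prod_nonneg fun t _ => rhoW_nonneg Q t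
      have h7 : ∏ t ∈ T j, rhoW Q t ≤ 1 := Finset.prod_le_one (fun t _ => rhoW_nonneg Q t) fun t _ => rhoW_le Q t
      have h8 : 0 ≤ ∏ t ∈ T j, c / Real.log t := Finset.prod_nonneg fun t ht => (h5 t ht).1
      have h9 : ∏ t ∈ T j, c / Real.log t ≤ (c / Real.log 2) ^ k := by
        rw [← hk j hjJ, ← Finset.prod_const]
        exact Finset.prod_le_prod (fun t ht => (h5 t ht).1) fun t ht => (h5 t ht).2
      rw [abs_le]
      constructor <;> linarith
    · push Not at h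
      have h6 : ∏ t ∈ T j, rhoW Q t = ∏ t ∈ T j, c / Real.log t := by
        refine Finset.prod_congr rfl fun t ht => ?_
        rw [h4 t ht]
        refine min_eq_right ?_
        have h7 : Real.exp c ≤ (t : ℕ) := (Nat.le_ceil _).trans (by exact_mod_cast h t ht)
        have h8 : (2 : ℝ) ≤ (t : ℕ) := by exact_mod_cast h2 j hjJ t ht
        have h9 : c ≤ Real.log t := by
          rw [Real.le_log_iff_exp_le (by linarith)]
          exact h7
        exact (div_le_one (by linarith)).2 h9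
      rw [h6, sub_self, abs_zero]
  refine (Finset.abs_sum_le_sum_abs _ _).trans ((Finset.sum_le_sum h3).trans ?_)
  rw [← Finset.sum_filter, Finset.sum_const, nsmul_eq_mul]
  have hc0 : 0 ≤ (c / Real.log 2) ^ k + 1 := by positivity
  refine mul_le_mul_of_nonneg_right ?_ hc0
  have h4 : (cop J T Q).filter (fun j => ∃ t ∈ T j, t < N0) ⊆
      (Finset.range N0).biUnion (fun t => J.filter (fun j => t ∈ T j)) := by
    intro j hj
    rw [Finset.mem_filter] at hj
    obtain ⟨hj1, t, ht, htN⟩ := hj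
    unfold cop at hj1
    rw [Finset.mem_biUnion]
    exact ⟨t, Finset.mem_range.2 htN, Finset.mem_filter.2 ⟨(Finset.mem_filter.1 hj1).1, ht⟩⟩
  have h5 := (Finset.card_le_card h4).trans Finset.card_biUnion_le
  have h6 : ∑ t ∈ Finset.range N0, (J.filter (fun j => t ∈ T j)).card ≤ ∑ t ∈ Finset.range N0, D :=
    Finset.sum_le_sum fun t _ => hD t
  rw [Finset.sum_const, Finset.card_range, smul_eq_mul] at h6
  exact_mod_cast h5.trans h6

/-- the admissible indices -/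
def Sn (S : Set (ℕ × ℕ)) : Set ℕ := {n | n.unpair ∈ S}

lemma fst_tendsto (S : Set (ℕ × ℕ)) (B : ℕ) (hS : ∀ x c, (x, c) ∈ S → c ≤ x ^ B) :
    Tendsto (fun n : ℕ => n.unpair.1) (atTop ⊓ 𝓟 (Sn S)) atTop := by
  rw [tendsto_atTop]
  intro M
  rw [eventually_inf_principal]
  filter_upwards [eventually_ge_atTop ((M ^ B + M + 2) ^ 2)] with n hn hn2
  by_contra hcon
  push Not at hcon
  have h1 : n.unpair.2 ≤ n.unpair.1 ^ B := hS _ _ hn2
  have h2 : n.unpair.1 ^ B ≤ M ^ B := Nat.pow_le_pow_left hcon.le _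
  have h3 := Nat.pair_lt_max_add_one_sq n.unpair.1 n.unpair.2
  rw [Nat.pair_unpair] at h3
  have h4 : max n.unpair.1 n.unpair.2 + 1 ≤ M ^ B + M + 2 := by
    have : max n.unpair.1 n.unpair.2 ≤ M ^ B + M + 1 := max_le (by omega) (by omega)
    omega
  have h5 := Nat.pow_le_pow_left h4 2
  omega

lemma log_le (S : Set (ℕ × ℕ)) (B : ℕ) (hS : ∀ x c, (x, c) ∈ S → c ≤ x ^ B) (n : ℕ) (hn : n ∈ Sn S)
    (hx : 3 ≤ n.unpair.1) : Real.log n ≤ (2 * B + 4) * Real.log (n.unpair.1 : ℕ) := by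
  have h1 : n.unpair.2 ≤ n.unpair.1 ^ B := hS _ _ hn
  set x := n.unpair.1
  have h3 := Nat.pair_lt_max_add_one_sq n.unpair.1 n.unpair.2
  rw [Nat.pair_unpair] at h3
  have h4 : max n.unpair.1 n.unpair.2 + 1 ≤ x ^ (B + 2) := by
    have h5 : x ^ (B + 2) = x ^ 2 * x ^ B := by ring
    have h8 : 1 ≤ x ^ B := Nat.one_le_pow _ _ (by omega)
    have h7 : x + 2 ≤ x ^ 2 := by nlinarith
    have h9 : max n.unpair.1 n.unpair.2 ≤ x + x ^ B := max_le (by omega) (by omega)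
    rw [h5]
    nlinarith
  have h5 : n ≤ x ^ (2 * B + 4) := by
    have h6 := Nat.pow_le_pow_left h4 2
    have h7 : (x ^ (B + 2)) ^ 2 = x ^ (2 * B + 4) := by
      rw [← pow_mul]
      ring_nf
    omega
  rcases Nat.eq_zero_or_pos n with h0 | h0
  · rw [h0]
    simp only [Nat.cast_zero, Real.log_zero]
    have : 0 ≤ Real.log (x : ℕ) := Real.log_natCast_nonneg _
    positivity
  · have h6 : Real.log n ≤ Real.log ((x : ℝ) ^ (2 * B + 4)) := by
      apply Real.log_le_log (by exact_mod_cast h0)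
      exact_mod_cast h5
    rw [Real.log_pow] at h6
    push_cast at h6
    exact h6

variable {Ω : Type} {m0 : MeasurableSpace Ω} {μ : Measure Ω} [IsProbabilityMeasure μ]
  {ℱ : Filtration ℕ m0} {A : ℕ → Set Ω}

/-- **the uniform law for parametrised families of tuples** -/
theorem gen (hA : ∀ n, MeasurableSet[ℱ n] (A n)) (Q : ℕ) (hQ : 0 < Q)
    (hcop : ∀ n, ¬ Nat.Coprime n Q → A n = ∅)
    (hd : ∀ᵐ ω ∂μ, Tendsto (fun n : ℕ => dens μ ℱ A n ω * Real.log n)
      (atTop ⊓ 𝓟 {n : ℕ | Nat.Coprime (n + 1) Q}) (𝓝 ((Q : ℝ) / Nat.totient Q)))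
    (k D B : ℕ) (δ : ℝ) (hδ : 0 < δ) (hD1 : 1 ≤ D) (J : ℕ → ℕ → Finset ℕ) (T : ℕ → ℕ → ℕ → Finset ℕ)
    (hk : ∀ x c, ∀ j ∈ J x c, (T x c j).card = k) (h2 : ∀ x c, ∀ j ∈ J x c, ∀ t ∈ T x c j, 2 ≤ t)
    (hD : ∀ x c t, ((J x c).filter (fun j => t ∈ T x c j)).card ≤ D)
    (S : Set (ℕ × ℕ)) (hS1 : ∀ x c, (x, c) ∈ S → c ≤ x ^ B)
    (hS2 : ∀ x c, (x, c) ∈ S → ∀ j ∈ J x c, ∀ t ∈ T x c j, t ≤ x ^ B)
    (hS3 : ∀ᶠ x : ℕ in atTop, ∀ c, (x, c) ∈ S → (x : ℝ) ^ δ ≤ ((cop (J x c) (T x c) Q).card : ℝ)) :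
    ∀ᵐ ω ∂μ, ∀ ε : ℝ, 0 < ε → ∃ x₀ : ℕ, ∀ x ≥ x₀, ∀ c, (x, c) ∈ S →
      |((cho A (J x c) (T x c) ω).card : ℝ) - EE Q (J x c) (T x c)| ≤ ε * EE Q (J x c) (T x c) := by
  classical
  obtain ⟨K, hK0, hK⟩ := EE_near Q hQ k D
  have hfst := fst_tendsto S B hS1
  have hBr : (0 : ℝ) < (B : ℝ) + 1 := by positivity
  have hmain : ∀ z : ℝ, ∀ᶠ x : ℕ in atTop, ∀ c, (x, c) ∈ S → z ≤ EE Q (J x c) (T x c) := by
    intro z
    have h1 := pow_log ((1 / ((B : ℝ) + 1)) ^ k) δ (by positivity) hδ k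
    filter_upwards [h1.eventually_ge_atTop z, hS3, eventually_ge_atTop 3] with x g1 g2 g3 c hc
    have hx' : (3 : ℝ) ≤ x := by exact_mod_cast g3
    have hL : 0 < Real.log x := Real.log_pos (by linarith)
    have g4 := EE_ge Q hQ k B (J x c) (T x c) (hk x c) (h2 x c) x g3 (hS2 x c hc)
    refine g1.trans (le_trans ?_ g4)
    have g5 := mul_le_mul_of_nonneg_right (g2 c hc)
      (show 0 ≤ (1 / (((B : ℝ) + 1) * Real.log x)) ^ k by positivity)
    refine le_trans (le_of_eq ?_) g5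
    rw [← one_div_mul_one_div, mul_pow]
    rw [one_div_pow (Real.log (x : ℝ)) k]
    ring
  set F := atTop ⊓ 𝓟 (Sn S) with hF
  have hJn : ∀ n : ℕ, ∀ j ∈ cop (J n.unpair.1 n.unpair.2) (T n.unpair.1 n.unpair.2) Q,
      j ∈ J n.unpair.1 n.unpair.2 := by
    intro n j hj
    unfold cop at hj
    exact (Finset.mem_filter.1 hj).1
  have hE : Tendsto (fun n : ℕ => (∑ j ∈ cop (J n.unpair.1 n.unpair.2) (T n.unpair.1 n.unpair.2) Q,
      ∏ t ∈ T n.unpair.1 n.unpair.2 j, rhoW Q t) / ((D : ℕ) : ℝ) / Real.log n) F atTop := by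
    have hD' : (0 : ℝ) < D := by exact_mod_cast hD1
    have h1 := (pow_log (1 / 2 * (1 / ((B : ℝ) + 1)) ^ k / (D * (2 * B + 4))) δ (by positivity) hδ
      (k + 1)).comp hfst
    refine tendsto_atTop_mono' _ ?_ h1
    have h3 : ∀ᶠ n in F, n ∈ Sn S := eventually_inf_principal.2 (Eventually.of_forall fun n hn => hn)
    filter_upwards [h3, hfst.eventually (hmain (2 * K)), hfst.eventually_ge_atTop 3, hfst.eventually hS3,
      (eventually_gt_atTop 1).filter_mono inf_le_left] with n g1 g2 g3 g4 g5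
    have g2' := g2 n.unpair.2 g1
    have g4' := g4 n.unpair.2 g1
    have hx' : (3 : ℝ) ≤ (n.unpair.1 : ℕ) := by exact_mod_cast g3
    have hL : 0 < Real.log (n.unpair.1 : ℕ) := Real.log_pos (by linarith)
    have hn : 0 < Real.log n := Real.log_pos (by exact_mod_cast g5)
    have k1 := abs_le.1 (hK (J n.unpair.1 n.unpair.2) (T n.unpair.1 n.unpair.2) (hk _ _) (h2 _ _) (hD _ _))
    have k2 := EE_ge Q hQ k B _ _ (hk n.unpair.1 n.unpair.2) (h2 n.unpair.1 n.unpair.2) n.unpair.1 g3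
      (hS2 _ _ g1)
    have k3 := log_le S B hS1 n g1 g3
    simp only [Function.comp_apply]
    set x : ℝ := ((n.unpair.1 : ℕ) : ℝ)
    set P := ∑ j ∈ cop (J n.unpair.1 n.unpair.2) (T n.unpair.1 n.unpair.2) Q,
      ∏ t ∈ T n.unpair.1 n.unpair.2 j, rhoW Q t
    have k4 : 1 / 2 * (x ^ δ * (1 / (((B : ℝ) + 1) * Real.log x)) ^ k) ≤ P := by
      have g6 := mul_le_mul_of_nonneg_right g4'
        (show 0 ≤ (1 / (((B : ℝ) + 1) * Real.log x)) ^ k by positivity)
      linarith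
    have k5 : 1 / 2 * (1 / ((B : ℝ) + 1)) ^ k / (D * (2 * B + 4)) * x ^ δ / Real.log x ^ (k + 1) =
        (1 / 2 * (x ^ δ * (1 / (((B : ℝ) + 1) * Real.log x)) ^ k)) / D / ((2 * B + 4) * Real.log x) := by
      rw [← one_div_mul_one_div, mul_pow, one_div_pow (Real.log x) k, pow_succ]
      field_simp
    rw [k5]
    have hx0 : 0 < x := by linarith
    have k6 : 0 < 1 / 2 * (x ^ δ * (1 / (((B : ℝ) + 1) * Real.log x)) ^ k) := by positivity
    have k7 : 0 ≤ P / D := div_nonneg (k6.le.trans k4) hD'.le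
    exact div_le_div₀ k7 (div_le_div_of_nonneg_right k4 hD'.le) hn k3
  have hfam := families (μ := μ) hA (rhoW Q) (fun n => ⟨rhoW_nonneg Q n, rhoW_le Q n⟩)
    (dens_profile hA Q hQ hcop hd) k
    (fun n => cop (J n.unpair.1 n.unpair.2) (T n.unpair.1 n.unpair.2) Q)
    (fun n => T n.unpair.1 n.unpair.2) (fun _ => D)
    (fun n j hj => hk _ _ j (hJn n j hj))
    (fun n j hj h0 => by
      have := h2 _ _ j (hJn n j hj) 0 h0
      omega)
    (fun n t => by
      refine le_trans ?_ (hD n.unpair.1 n.unpair.2 t)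
      apply Finset.card_le_card
      intro j hj
      rw [Finset.mem_filter] at hj ⊢
      exact ⟨hJn n j hj.1, hj.2⟩) F inf_le_left hE
  filter_upwards [hfam] with ω hω ε hε
  obtain ⟨η, hη0, hη1, hηε⟩ : ∃ η : ℝ, 0 < η ∧ η ≤ 1 ∧ 3 * η ≤ ε := by
    refine ⟨min (ε / 3) 1, lt_min (by positivity) one_pos, min_le_right _ _, ?_⟩
    have : min (ε / 3) 1 ≤ ε / 3 := min_le_left _ _
    linarith
  obtain ⟨N, hN⟩ := eventually_atTop.1 (eventually_inf_principal.1 (hω η hη0))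
  obtain ⟨N', hN'⟩ := eventually_atTop.1 (hmain (K / η))
  refine ⟨max N N', fun x hx c hc => ?_⟩
  have hx1 : N ≤ x := (le_max_left N N').trans hx
  have hx2 : N' ≤ x := (le_max_right N N').trans hx
  have hmem : Nat.pair x c ∈ Sn S := by
    unfold Sn
    simp only [Set.mem_ofPred_eq, Nat.unpair_pair]
    exact hc
  have h1 := hN (Nat.pair x c) (hx1.trans (Nat.left_le_pair x c)) hmem
  rw [Mx_top (rhoW Q) _ _ (k := k) (fun j hj => hk _ _ j (hJn (Nat.pair x c) j hj))] at h1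
  simp only [Nat.unpair_pair] at h1
  have e1 : (cop (J x c) (T x c) Q).filter (fun j => ∀ t ∈ T x c j, ω ∈ A t) = cho A (J x c) (T x c) ω := by
    unfold cop cho
    rw [Finset.filter_filter]
    apply Finset.filter_congr
    intro j _
    constructor
    · exact fun h => h.2
    · intro h
      refine ⟨fun t ht => ?_, h⟩
      by_contra hcon
      have := h t ht
      rw [hcop t hcon] at this
      exact this
  rw [e1] at h1
  have h3 := hK (J x c) (T x c) (hk x c) (h2 x c) (hD x c)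
  have h5 := hN' x hx2 c hc
  set R : ℝ := ((cho A (J x c) (T x c) ω).card : ℝ)
  set M := EE Q (J x c) (T x c)
  set P := ∑ j ∈ cop (J x c) (T x c) Q, ∏ t ∈ T x c j, rhoW Q t
  have h6 : K ≤ η * M := by
    rw [div_le_iff₀ hη0] at h5
    linarith
  have h7 := h3.trans h6
  have k1 := abs_le.1 h1
  have k2 := abs_le.1 h7
  have hM0 : 0 ≤ η * M := hK0.trans h6
  have k3 : η * P ≤ η * ((1 + η) * M) := mul_le_mul_of_nonneg_left (by linarith) hη0.le
  have k4 : η * (η * M) ≤ 1 * (η * M) := mul_le_mul_of_nonneg_right hη1 hM0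
  have hM1 : 0 ≤ M := EE_nonneg _ _ _
  have k5 : 3 * η * M ≤ ε * M := mul_le_mul_of_nonneg_right hηε hM1
  rw [abs_le]
  constructor <;> nlinarith

end Pool.Agent.N223.UB
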