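import Mathlib
import Pool.Agent.N223.UB.Gen

set_option autoImplicit false

/-!
# The uniform law for families of values, one value for each argument
-/

open MeasureTheory Filter
open scoped Topology

namespace Pool.Agent.N223.UB

open Pool.Agent.N909.TF Pool.Agent.R528.RM

/-- the expected number of the chosen values `v c n`, `a ≤ n ≤ x` -/
noncomputable def E1 (Q : ℕ) (v : ℕ → ℕ → ℕ) (a c x : ℕ) : ℝ :=
  ∑ n ∈ (Finset.Icc a x).filter (fun n => Nat.Coprime (v c n) Q),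
    ((Q : ℝ) / Nat.totient Q) / Real.log (v c n)

/-- many members of a residue class -/
lemma class_card (M r a x : ℕ) (hM : 0 < M) :
    (x : ℝ) / M - 1 - a ≤ (((Finset.Icc a x).filter (fun n => n ≡ r [MOD M])).card : ℝ) := by
  classical
  have h1 := many_class M r x hM
  have h2 : (Finset.Ioc 0 x).filter (fun m => m ≡ r [MOD M]) ⊆
      (Finset.Icc a x).filter (fun n => n ≡ r [MOD M]) ∪ Finset.range a := by
    intro m hm
    rw [Finset.mem_filter, Finset.mem_Ioc] at hm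
    rw [Finset.mem_union, Finset.mem_filter, Finset.mem_Icc, Finset.mem_range]
    by_cases h : a ≤ m
    · left
      exact ⟨⟨h, hm.1.2⟩, hm.2⟩
    · right
      omega
  have h3 := (h1.trans (Finset.card_le_card h2)).trans (Finset.card_union_le _ _)
  rw [Finset.card_range] at h3
  have hM' : (0 : ℝ) < M := by exact_mod_cast hM
  have h4 : ((x / M : ℕ) : ℝ) ≤ (((Finset.Icc a x).filter (fun n => n ≡ r [MOD M])).card : ℝ) + a := by
    exact_mod_cast h3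
  have h5 : (x : ℝ) / M - 1 ≤ ((x / M : ℕ) : ℝ) := by
    have h9 := Nat.lt_div_mul_add (a := x) hM
    have h10 : (x : ℝ) < ((x / M : ℕ) : ℝ) * M + M := by exact_mod_cast h9
    rw [sub_le_iff_le_add, div_le_iff₀ hM']
    linarith
  linarith

variable {Ω : Type} {m0 : MeasurableSpace Ω} {μ : Measure Ω} [IsProbabilityMeasure μ]
  {ℱ : Filtration ℕ m0} {A : ℕ → Set Ω}

/-- **the uniform law for one value for each argument** -/
theorem gen1 (hA : ∀ n, MeasurableSet[ℱ n] (A n)) (Q : ℕ) (hQ : 0 < Q)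
    (hcop : ∀ n, ¬ Nat.Coprime n Q → A n = ∅)
    (hd : ∀ᵐ ω ∂μ, Tendsto (fun n : ℕ => dens μ ℱ A n ω * Real.log n)
      (atTop ⊓ 𝓟 {n : ℕ | Nat.Coprime (n + 1) Q}) (𝓝 ((Q : ℝ) / Nat.totient Q)))
    (v : ℕ → ℕ → ℕ) (P : ℕ → Prop) (a M C B : ℕ) (hM : 0 < M)
    (hv2 : ∀ c n, P c → a ≤ n → 2 ≤ v c n)
    (hinj : ∀ c m n, P c → a ≤ m → a ≤ n → v c m = v c n → m = n)
    (hB : ∀ x c n, 2 ≤ x → P c → c ≤ x ^ C → n ≤ x → v c n ≤ x ^ B)
    (hloc : ∀ c, P c → ∃ r, ∀ n, n ≡ r [MOD M] → Nat.Coprime (v c n) Q) :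
    ∀ᵐ ω ∂μ, ∀ ε : ℝ, 0 < ε → ∃ x₀ : ℕ, ∀ x ≥ x₀, ∀ c, P c → c ≤ x ^ C →
      |({n | a ≤ n ∧ n ≤ x ∧ ω ∈ A (v c n)}.ncard : ℝ) - E1 Q v a c x| ≤ ε * E1 Q v a c x ∧
      (x : ℝ) / (2 * M * ((B + C + 1) * Real.log x)) ≤ E1 Q v a c x := by
  classical
  have hM' : (0 : ℝ) < M := by exact_mod_cast hM
  set J : ℕ → ℕ → Finset ℕ := fun x c => if P c then Finset.Icc a x else ∅ with hJ
  set T : ℕ → ℕ → ℕ → Finset ℕ := fun _ c n => {v c n} with hT
  set S : Set (ℕ × ℕ) := {z | 2 ≤ z.1 ∧ P z.2 ∧ z.2 ≤ z.1 ^ C} with hS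
  have hJP : ∀ x c j, j ∈ J x c → P c ∧ a ≤ j ∧ j ≤ x := by
    intro x c j hj
    simp only [hJ] at hj
    split_ifs at hj with h
    · rw [Finset.mem_Icc] at hj
      exact ⟨h, hj.1, hj.2⟩
    · exact absurd hj (Finset.notMem_empty j)
  have hcopE : ∀ x c, P c → cop (J x c) (T x c) Q = (Finset.Icc a x).filter (fun n => Nat.Coprime (v c n) Q) := by
    intro x c hc
    unfold cop
    simp only [hJ, hT, if_pos hc, Finset.mem_singleton, forall_eq]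
  have hEE : ∀ x c, P c → EE Q (J x c) (T x c) = E1 Q v a c x := by
    intro x c hc
    unfold EE E1
    rw [hcopE x c hc]
    simp only [hT, Finset.prod_singleton]
  have hcard : ∀ x c : ℕ, P c → (x : ℝ) / M - 1 - a ≤ ((cop (J x c) (T x c) Q).card : ℝ) := by
    intro x c hc
    obtain ⟨r, hr⟩ := hloc c hc
    refine (class_card M r a x hM).trans ?_
    rw [hcopE x c hc]
    have : (Finset.Icc a x).filter (fun n => n ≡ r [MOD M]) ⊆
        (Finset.Icc a x).filter (fun n => Nat.Coprime (v c n) Q) := by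
      intro n hn
      rw [Finset.mem_filter] at hn ⊢
      exact ⟨hn.1, hr n hn.2⟩
    exact_mod_cast Finset.card_le_card this
  have hhalf : ∀ᶠ x : ℕ in atTop, (x : ℝ) / (2 * M) ≤ (x : ℝ) / M - 1 - a := by
    filter_upwards [eventually_ge_atTop (2 * M * (1 + a))] with x hx
    have hx' : (2 : ℝ) * M * (1 + a) ≤ x := by exact_mod_cast hx
    have h1 : (x : ℝ) / M = 2 * (x / (2 * M)) := by field_simp
    have h2 : 1 + (a : ℝ) ≤ x / (2 * M) := by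
      rw [le_div_iff₀ (by positivity)]
      linarith
    rw [h1]
    linarith
  have hroot : ∀ᶠ x : ℕ in atTop, (x : ℝ) ^ (1 / 2 : ℝ) ≤ (x : ℝ) / (2 * M) := by
    filter_upwards [eventually_ge_atTop ((2 * M) ^ 2), eventually_ge_atTop 1] with x hx hx1
    have hx' : ((2 : ℝ) * M) ^ 2 ≤ x := by exact_mod_cast hx
    have hx0 : (0 : ℝ) < x := by exact_mod_cast hx1
    have h1 : (x : ℝ) ^ (1 / 2 : ℝ) * (x : ℝ) ^ (1 / 2 : ℝ) = x := by
      rw [← Real.rpow_add hx0]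
      norm_num
    have h2 : 2 * (M : ℝ) ≤ (x : ℝ) ^ (1 / 2 : ℝ) := by
      rw [← Real.sqrt_eq_rpow]
      exact Real.le_sqrt_of_sq_le hx'
    rw [le_div_iff₀ (by positivity)]
    calc (x : ℝ) ^ (1 / 2 : ℝ) * (2 * M) ≤ (x : ℝ) ^ (1 / 2 : ℝ) * (x : ℝ) ^ (1 / 2 : ℝ) :=
          mul_le_mul_of_nonneg_left h2 (by positivity)
      _ = x := h1
  have h2' : ∀ x c, ∀ j ∈ J x c, ∀ t ∈ T x c j, 2 ≤ t := by
    intro x c j hj t ht
    obtain ⟨h1, h2, _⟩ := hJP x c j hj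
    simp only [hT, Finset.mem_singleton] at ht
    rw [ht]
    exact hv2 c j h1 h2
  have hle : ∀ x c, (x, c) ∈ S → ∀ j ∈ J x c, ∀ t ∈ T x c j, t ≤ x ^ (B + C) := by
    rintro x c ⟨h1, h2, h3⟩ j hj t ht
    simp only [hT, Finset.mem_singleton] at ht
    rw [ht]
    refine (hB x c j h1 h2 h3 (hJP x c j hj).2.2).trans ?_
    exact Nat.pow_le_pow_right (by simp only at h1; omega) (by omega)
  have hlaw := gen (μ := μ) hA Q hQ hcop hd 1 1 (B + C) (1 / 2) (by norm_num) le_rfl J T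
    (fun x c j _ => by simp only [hT, Finset.card_singleton]) h2'
    (fun x c t => by
      refine Finset.card_le_one.2 fun i hi j hj => ?_
      rw [Finset.mem_filter] at hi hj
      simp only [hT, Finset.mem_singleton] at hi hj
      obtain ⟨h1, h2, _⟩ := hJP x c i hi.1
      obtain ⟨_, h4, _⟩ := hJP x c j hj.1
      exact hinj c i j h1 h2 h4 (hi.2.symm.trans hj.2))
    S (fun x c h => by
      refine h.2.2.trans ?_
      have : 2 ≤ x := h.1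
      exact Nat.pow_le_pow_right (by simp only; omega) (by omega)) hle
    (by
      filter_upwards [hhalf, hroot] with x g1 g2 c hc
      exact (g2.trans g1).trans (hcard x c hc.2.1))
  filter_upwards [hlaw] with ω hω ε hε
  obtain ⟨x₀, hx₀⟩ := hω ε hε
  obtain ⟨x₁, hx₁⟩ := eventually_atTop.1 hhalf
  refine ⟨max (max x₀ x₁) 3, fun x hx c hP hc => ?_⟩
  have g1 : x₀ ≤ x := (le_max_left _ _).trans ((le_max_left _ _).trans hx)
  have g2 : x₁ ≤ x := (le_max_right _ _).trans ((le_max_left _ _).trans hx)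
  have g3 : 3 ≤ x := (le_max_right _ _).trans hx
  have hmem : (x, c) ∈ S := ⟨by simp only; omega, hP, hc⟩
  have h1 := hx₀ x g1 c hmem
  rw [hEE x c hP] at h1
  have h3 : ((cho A (J x c) (T x c) ω).card : ℝ) = ({n | a ≤ n ∧ n ≤ x ∧ ω ∈ A (v c n)}.ncard : ℝ) := by
    rw [← Set.ncard_coe_finset]
    congr 2
    ext n
    unfold cho
    simp only [hJ, hT, if_pos hP, Finset.coe_filter, Finset.mem_Icc, Finset.mem_singleton, forall_eq,
      Set.mem_ofPred_eq]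
    tauto
  rw [h3] at h1
  refine ⟨h1, ?_⟩
  have h4 := EE_ge Q hQ 1 (B + C) (J x c) (T x c) (fun j _ => by simp only [hT, Finset.card_singleton])
    (h2' x c) x g3 (hle x c hmem)
  rw [hEE x c hP, pow_one] at h4
  refine le_trans ?_ h4
  have h5 := (hx₁ x g2).trans (hcard x c hP)
  have hx' : (3 : ℝ) ≤ x := by exact_mod_cast g3
  have hL : 0 < Real.log x := Real.log_pos (by linarith)
  have h6 : (x : ℝ) / (2 * M * ((B + C + 1) * Real.log x)) =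
      (x : ℝ) / (2 * M) * (1 / ((((B + C : ℕ) : ℝ) + 1) * Real.log x)) := by
    rw [div_mul_div_comm, mul_one]
    push_cast
    rfl
  rw [h6]
  exact mul_le_mul_of_nonneg_right h5 (by positivity)

/-- powers of large integers -/
lemma rpow_floor (a b : ℝ) (h0 : 0 < a) (hab : a < b) (B : ℕ) :
    ∃ K₀ : ℕ, 3 ≤ K₀ ∧ ∀ K ≥ K₀, (K : ℝ) ^ a ≤ (⌊(K : ℝ) ^ b⌋₊ : ℝ) ∧ B ≤ ⌊(K : ℝ) ^ b⌋₊ := by
  have t1 : Tendsto (fun n : ℕ => (n : ℝ) ^ (b - a)) atTop atTop :=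
    (tendsto_rpow_atTop (by linarith)).comp tendsto_natCast_atTop_atTop
  have t2 : Tendsto (fun n : ℕ => (n : ℝ) ^ a) atTop atTop :=
    (tendsto_rpow_atTop h0).comp tendsto_natCast_atTop_atTop
  obtain ⟨N, hN⟩ := eventually_atTop.1 ((t1.eventually_ge_atTop 2).and ((t2.eventually_ge_atTop ((B : ℝ) + 1)).and
    (eventually_ge_atTop 3)))
  refine ⟨max N 3, le_max_right _ _, fun K hK => ?_⟩
  obtain ⟨g1, g2, g3⟩ := hN K ((le_max_left _ _).trans hK)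
  have hK0 : (0 : ℝ) < K := by
    have : (3 : ℝ) ≤ K := by exact_mod_cast g3
    linarith
  have h1 : (K : ℝ) ^ b = (K : ℝ) ^ a * (K : ℝ) ^ (b - a) := by
    rw [← Real.rpow_add hK0]
    congr 1
    ring
  have h2 := Nat.lt_floor_add_one ((K : ℝ) ^ b)
  have hB : (0 : ℝ) ≤ B := Nat.cast_nonneg _
  have h3 : (K : ℝ) ^ a * 2 ≤ (K : ℝ) ^ b := by
    rw [h1]
    exact mul_le_mul_of_nonneg_left g1 (by linarith)
  have h4 : (K : ℝ) ^ a ≤ (⌊(K : ℝ) ^ b⌋₊ : ℝ) := by linarith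
  refine ⟨h4, ?_⟩
  have h5 : (B : ℝ) ≤ (⌊(K : ℝ) ^ b⌋₊ : ℝ) := by linarith
  exact_mod_cast h5

/-- the lower bound tends to infinity -/
lemma big (K : ℝ) (hK : 0 < K) (z : ℝ) : ∀ᶠ x : ℕ in atTop, z ≤ (x : ℝ) / (K * Real.log x) := by
  have h1 := pow_log (1 / K) 1 (by positivity) one_pos 1
  filter_upwards [h1.eventually_ge_atTop z] with x hx
  refine hx.trans (le_of_eq ?_)
  rw [Real.rpow_one, pow_one]
  by_cases hl : Real.log x = 0
  · simp [hl]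
  · field_simp

/-- infinitely many arguments from the lower bound -/
lemma infinite_args {S : Set ℕ} {v : ℕ → ℕ} {a : ℕ} {K : ℝ} (hK : 0 < K) {x₀ : ℕ}
    (h : ∀ x ≥ x₀, (x : ℝ) / (K * Real.log x) ≤ ({n | a ≤ n ∧ n ≤ x ∧ v n ∈ S}.ncard : ℝ)) :
    {n | a ≤ n ∧ v n ∈ S}.Infinite := by
  intro hfin
  obtain ⟨x, hx⟩ := ((big K hK ((({n | a ≤ n ∧ v n ∈ S}.ncard : ℕ) : ℝ) + 1)).and
    (eventually_ge_atTop x₀)).exists
  have h1 := h x hx.2
  have h2 : ({n | a ≤ n ∧ n ≤ x ∧ v n ∈ S}.ncard : ℝ) ≤ ({n | a ≤ n ∧ v n ∈ S}.ncard : ℝ) := by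
    have h3 : {n | a ≤ n ∧ n ≤ x ∧ v n ∈ S} ⊆ {n | a ≤ n ∧ v n ∈ S} := fun n hn => ⟨hn.1, hn.2.2⟩
    exact_mod_cast Set.ncard_le_ncard h3 hfin
  linarith [hx.1]

/-- small arguments from the uniform lower bound -/
lemma small_args {S : Set ℕ} {v : ℕ → ℕ → ℕ} {P : ℕ → Prop} {a : ℕ} (K : ℕ → ℝ) (hK : ∀ C, 0 < K C)
    (h : ∀ C : ℕ, ∃ x₀ : ℕ, ∀ x ≥ x₀, ∀ c, P c → c ≤ x ^ C →
      (x : ℝ) / (K C * Real.log x) ≤ ({n | a ≤ n ∧ n ≤ x ∧ v c n ∈ S}.ncard : ℝ)) {δ : ℝ} (hδ : 0 < δ) :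
    ∃ c₀ : ℕ, ∀ c ≥ c₀, P c → ∃ n : ℕ, a ≤ n ∧ (n : ℝ) ≤ (c : ℝ) ^ δ ∧ v c n ∈ S := by
  obtain ⟨C, hC⟩ := exists_nat_ge (2 / δ)
  obtain ⟨x₀, hx₀⟩ := h C
  obtain ⟨K₀, hK0, hK₀⟩ := rpow_floor (δ / 2) δ (by positivity) (by linarith) (max x₀ 3)
  refine ⟨K₀, fun c hc hP => ?_⟩
  obtain ⟨g1, g2⟩ := hK₀ c hc
  set x := ⌊(c : ℝ) ^ δ⌋₊ with hx
  have hc3 : (3 : ℝ) ≤ c := by exact_mod_cast hK0.trans hc
  have g3 : x₀ ≤ x := (le_max_left _ _).trans g2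
  have g4 : 3 ≤ x := (le_max_right _ _).trans g2
  have h1 : c ≤ x ^ C := by
    have h2 : (c : ℝ) ≤ (x : ℝ) ^ C := by
      calc (c : ℝ) = (c : ℝ) ^ (1 : ℝ) := (Real.rpow_one _).symm
        _ ≤ (c : ℝ) ^ (δ / 2 * C) := by
          apply Real.rpow_le_rpow_of_exponent_le (by linarith)
          rw [div_le_iff₀ hδ] at hC
          linarith
        _ = ((c : ℝ) ^ (δ / 2)) ^ C := by rw [Real.rpow_mul (by linarith), Real.rpow_natCast]
        _ ≤ (x : ℝ) ^ C := pow_le_pow_left₀ (by positivity) g1 C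
    exact_mod_cast h2
  have h2 := hx₀ x g3 c hP h1
  have hx' : (3 : ℝ) ≤ x := by exact_mod_cast g4
  have hL : 0 < Real.log x := Real.log_pos (by linarith)
  have h3 : 0 < (x : ℝ) / (K C * Real.log x) := div_pos (by linarith) (mul_pos (hK C) hL)
  have h4 : {n | a ≤ n ∧ n ≤ x ∧ v c n ∈ S}.ncard ≠ 0 := by
    intro h0
    rw [h0, Nat.cast_zero] at h2
    linarith
  obtain ⟨n, hn1, hn2, hn3⟩ := Set.nonempty_of_ncard_ne_zero h4
  refine ⟨n, hn1, ?_, hn3⟩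
  calc (n : ℝ) ≤ x := by exact_mod_cast hn2
    _ ≤ (c : ℝ) ^ δ := Nat.floor_le (by positivity)

end Pool.Agent.N223.UB
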